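import Pool.Agent.N718.DC.Stm4
import Pool.Agent.N477.DC.MAINA

/-!
# Project DW (helper718), part MAINW (worker: helper896)
-/

set_option autoImplicit false

namespace Pool.Agent.N896.DW

open Pool.Agent.N718.DC Finset
open Pool.Agent.N477.DC (BB card_Gam)

noncomputable section

/-! ### Scaling -/

theorem fmv_smul {e : ℕ} (c : Fin (e + 2) → ℤ) {K : Type} [Field K] (l x y : K) :
    fmv c (l * x) (l * y) = l ^ (e + 1) * fmv c x y := by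
  unfold fmv fm
  rw [mul_sum]
  refine sum_congr rfl fun j _ => ?_
  have hj : (j : ℕ) ≤ e + 1 := by have := j.isLt; omega
  have h1 : l ^ (e + 1) = l ^ (e + 1 - (j : ℕ)) * l ^ (j : ℕ) := by
    rw [← pow_add, Nat.sub_add_cancel hj]
  rw [mul_pow, mul_pow, h1]
  ring

theorem fmv_zero {e : ℕ} (c : Fin (e + 2) → ℤ) {K : Type} [Field K] :
    fmv c (0 : K) 0 = 0 := by
  have := fmv_smul c (0 : K) 0 0
  rw [mul_zero, zero_pow (by omega), zero_mul] at this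
  exact this

theorem onC_scale {K : Type} [Field K] {A B C t : K} {z : Fin 3 → K} (h : OnC A B C z) :
    OnC (t * A) (t * B) (t * C) z :=
  ⟨h.1, by linear_combination t * h.2⟩

theorem onC_smul {K : Type} [Field K] {A B C μ : K} (hμ : μ ≠ 0) {z : Fin 3 → K}
    (h : OnC A B C z) : OnC A B C (μ • z) := by
  refine ⟨smul_ne_zero hμ h.1, ?_⟩
  show A * (μ * z 0) ^ 2 + B * (μ * z 1) ^ 2 = C * (μ * z 2) ^ 2
  linear_combination μ ^ 2 * h.2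

theorem sol_of_onC {K : Type} [Field K] {A B C : K} {z : Fin 3 → K} (h : OnC A B C z) :
    Sol A B C := by
  refine ⟨z 0, z 1, z 2, ?_, h.2⟩
  by_contra hn
  push Not at hn
  refine h.1 (funext fun j => ?_)
  fin_cases j
  · exact hn.1
  · exact hn.2.1
  · exact hn.2.2

theorem onC_of_sol {K : Type} [Field K] {A B C : K} (h : Sol A B C) : ∃ z, OnC A B C z := by
  obtain ⟨u, v, w, h1, h2⟩ := h
  refine ⟨![u, v, w], ?_, h2⟩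
  intro h3
  have e0 : u = 0 := congrFun h3 0
  have e1 : v = 0 := congrFun h3 1
  have e2 : w = 0 := congrFun h3 2
  rcases h1 with h | h | h
  · exact h e0
  · exact h e1
  · exact h e2

variable {r : ℕ} {e : Fin r × Fin 3 → ℕ}

theorem onX_base (he : ∀ i l l', e (i, l) = e (i, l'))
    {c : (k : Fin r × Fin 3) → Fin (e k + 2) → ℤ} {K : Type} [Field K] {x : Fin 2 → K}
    {z : Fin r → Fin 3 → K} {l : K} (hl : l ≠ 0) (h : OnX c x z) : OnX c (l • x) z := by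
  refine ⟨fun k => ?_, fun i => ?_⟩
  · show fmv (c k) (l * x 0) (l * x 1) ≠ 0
    rw [fmv_smul]
    exact mul_ne_zero (pow_ne_zero _ hl) (h.1 k)
  · show OnC (fmv (c (i, 0)) (l * x 0) (l * x 1)) (fmv (c (i, 1)) (l * x 0) (l * x 1))
      (fmv (c (i, 2)) (l * x 0) (l * x 1)) (z i)
    have h1 : l ^ (e (i, 1) + 1) = l ^ (e (i, 0) + 1) := by rw [he i 1 0]
    have h2 : l ^ (e (i, 2) + 1) = l ^ (e (i, 0) + 1) := by rw [he i 2 0]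
    rw [fmv_smul, fmv_smul, fmv_smul, h1, h2]
    exact onC_scale (h.2 i)

theorem onX_fib {c : (k : Fin r × Fin 3) → Fin (e k + 2) → ℤ} {K : Type} [Field K] {x : Fin 2 → K}
    {z : Fin r → Fin 3 → K} {μ : Fin r → K} (hμ : ∀ i, μ i ≠ 0) (h : OnX c x z) :
    OnX c x (fun i => μ i • z i) :=
  ⟨h.1, fun i => onC_smul (hμ i) (h.2 i)⟩

theorem onX_PS {c : (k : Fin r × Fin 3) → Fin (e k + 2) → ℤ} {K : Type} [Field K] {x : Fin 2 → K}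
    {z : Fin r → Fin 3 → K} (h : OnX c x z) : PS c (x 0) (x 1) :=
  ⟨h.1, fun i => sol_of_onC (h.2 i)⟩

/-! ### Norms -/

theorem exists_scal {K : Type} [NormedField K] {n : ℕ} (v : Fin n → K) (hv : v ≠ 0) :
    ∃ l : K, l ≠ 0 ∧ ‖l • v‖ = 1 := by
  obtain ⟨j₀, hj₀⟩ : ∃ j, v j ≠ 0 := by
    by_contra h
    push Not at h
    exact hv (funext h)
  have : Nonempty (Fin n) := ⟨j₀⟩
  obtain ⟨j, hj⟩ := Finite.exists_max (fun j => ‖v j‖)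
  have h1 : ‖v‖ = ‖v j‖ :=
    le_antisymm ((pi_norm_le_iff_of_nonneg (norm_nonneg _)).2 hj) (norm_le_pi_norm v j)
  have h2 : 0 < ‖v j‖ := lt_of_lt_of_le (norm_pos_iff.2 hj₀) (hj j₀)
  refine ⟨(v j)⁻¹, inv_ne_zero (norm_pos_iff.1 h2), ?_⟩
  rw [norm_smul, h1, norm_inv, inv_mul_cancel₀ h2.ne']

theorem near_of_scaled {K : Type} [NormedField K] {n : ℕ} {a b : Fin n → K} {l : K} {ε : ℝ}
    (hl : l ≠ 0) (h1 : ‖l • a‖ = 1) (h2 : ∀ j, ‖(l • a) j - b j‖ ≤ ε) : Near ε a b := by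
  have hl0 : 0 < ‖l‖ := norm_pos_iff.2 hl
  refine ⟨l⁻¹, inv_ne_zero hl, fun j => ?_⟩
  rw [norm_smul] at h1
  have h3 : ‖a‖ = ‖l‖⁻¹ := by
    field_simp
    linarith
  have h4 : a j - l⁻¹ * b j = l⁻¹ * ((l • a) j - b j) := by
    show a j - l⁻¹ * b j = l⁻¹ * (l * a j - b j)
    field_simp
  rw [h4, norm_mul, norm_inv, h3]
  exact mul_le_mul_of_nonneg_left (h2 j) (by positivity)

theorem near_smul_right {K : Type} [NormedField K] {n : ℕ} {a b : Fin n → K} {l : K} {ε : ℝ}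
    (hl : l ≠ 0) (h : Near ε a b) : Near ε a (fun j => l * b j) := by
  obtain ⟨l', hl', h'⟩ := h
  refine ⟨l' / l, div_ne_zero hl' hl, fun j => ?_⟩
  have : l' / l * (l * b j) = l' * b j := by field_simp
  rw [this]
  exact h' j

theorem near_trans {K : Type} [NormedField K] {n : ℕ} {a b c : Fin n → K} {ε ε' ε'' : ℝ}
    (hε : 0 ≤ ε) (hε' : 0 ≤ ε')
    (h : Near ε a b) (h' : Near ε' b c) (hε'' : ε + ε' * (1 + ε) ≤ ε'') : Near ε'' a c := by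
  obtain ⟨l, hl, h1⟩ := h
  obtain ⟨l', hl', h2⟩ := h'
  have h3 : ‖l • b‖ ≤ ‖a‖ * (1 + ε) := by
    refine (pi_norm_le_iff_of_nonneg (by positivity)).2 fun j => ?_
    have e1 : (l • b) j = a j - (a j - l * b j) := by
      show l * b j = a j - (a j - l * b j)
      ring
    rw [e1]
    have := norm_le_pi_norm a j
    have := norm_sub_le (a j) (a j - l * b j)
    have := h1 j
    linarith
  rw [norm_smul] at h3
  refine ⟨l * l', mul_ne_zero hl hl', fun j => ?_⟩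
  have e1 : a j - l * l' * c j = (a j - l * b j) + l * (b j - l' * c j) := by ring
  rw [e1]
  have h4 : ‖l * (b j - l' * c j)‖ ≤ ‖a‖ * (1 + ε) * ε' := by
    rw [norm_mul]
    calc ‖l‖ * ‖b j - l' * c j‖ ≤ ‖l‖ * (‖b‖ * ε') :=
          mul_le_mul_of_nonneg_left (h2 j) (norm_nonneg _)
      _ = ‖l‖ * ‖b‖ * ε' := by ring
      _ ≤ ‖a‖ * (1 + ε) * ε' := mul_le_mul_of_nonneg_right h3 hε'
  have h5 := norm_add_le (a j - l * b j) (l * (b j - l' * c j))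
  have h6 := h1 j
  have h7 : ‖a‖ * (ε + ε' * (1 + ε)) ≤ ‖a‖ * ε'' :=
    mul_le_mul_of_nonneg_left hε'' (norm_nonneg _)
  nlinarith

theorem tri {p : ℕ} [Fact p.Prime] {a b c : ℚ_[p]} {ρ : ℝ} (h1 : ‖a - b‖ ≤ ρ)
    (h2 : ‖b - c‖ ≤ ρ) : ‖a - c‖ ≤ ρ := by
  have : a - c = (a - b) + (b - c) := by ring
  rw [this]
  exact (Padic.nonarchimedean _ _).trans (max_le h1 h2)

theorem padic_appr {p : ℕ} [Fact p.Prime] (x : ℚ_[p]) (hx : ‖x‖ ≤ 1) (N : ℕ) :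
    ∃ u : ℕ, u < p ^ N ∧ ‖x - (u : ℚ_[p])‖ ≤ ((p : ℝ) ^ N)⁻¹ := by
  let x' : ℤ_[p] := ⟨x, hx⟩
  refine ⟨x'.appr N, PadicInt.appr_lt x' N, ?_⟩
  have h := PadicInt.appr_spec N x'
  rw [← PadicInt.norm_le_pow_iff_mem_span_pow] at h
  rw [zpow_neg, zpow_natCast] at h
  exact h

theorem int_close {p : ℕ} [Fact p.Prime] {N : ℕ} {a b : ℤ} (h : (p : ℤ) ^ N ∣ a - b) :
    ‖(a : ℚ_[p]) - (b : ℚ_[p])‖ ≤ ((p : ℝ) ^ N)⁻¹ := by
  have h4 := (Padic.norm_int_le_pow_iff_dvd (p := p) (a - b) N).2 (by exact_mod_cast h)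
  rw [zpow_neg, zpow_natCast] at h4
  push_cast at h4
  exact h4

theorem inv_mono {p : ℕ} [Fact p.Prime] {N n : ℕ} (h : N ≤ n) :
    ((p : ℝ) ^ n)⁻¹ ≤ ((p : ℝ) ^ N)⁻¹ := by
  have hp : (1 : ℝ) ≤ p := by exact_mod_cast (Fact.out : p.Prime).one_lt.le
  have : (p : ℝ) ^ N ≤ (p : ℝ) ^ n := pow_le_pow_right₀ hp h
  have h0 : (0 : ℝ) < (p : ℝ) ^ N := by positivity
  exact inv_anti₀ h0 this

theorem inv_le_one' {p : ℕ} [Fact p.Prime] (n : ℕ) : ((p : ℝ) ^ n)⁻¹ ≤ 1 := by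
  have := inv_mono (p := p) (Nat.zero_le n)
  simpa using this

/-! ### The local data -/

/-- the integral point `a` lies in the local class `ξ` for the family `γ` -/
def GdW (S : Finset Nat.Primes) (N W : ℕ) (n : ℕ → ℕ) (B : ℕ)
    (γ : (k : Fin r × Fin 3) → Fin (e k + 2) → ℤ)
    (ξ : (S → Fin 2 → Fin B) × (S → Fin r → Fin 3 → Fin B)) (a : Fin 2 → ℤ) : Prop :=
  (∀ p : ℕ, p.Prime → p ≤ W → ∀ k, ¬ ((p : ℤ) ^ (8 * n p + 24) ∣ fm (γ k) (a 0) (a 1))) ∧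
  (∀ (p : ℕ) [Fact p.Prime], p ≤ W → PS γ ((a 0 : ℤ) : ℚ_[p]) ((a 1 : ℤ) : ℚ_[p])) ∧
  ∀ p : S, (∀ j, ‖(((ξ.1 p j : Fin B) : ℕ) : ℚ_[(p.1 : ℕ)]) - (a j : ℚ_[(p.1 : ℕ)])‖ ≤
      ((((p.1 : ℕ) : ℝ) ^ N))⁻¹) ∧
    ∃ z' : Fin r → Fin 3 → ℚ_[(p.1 : ℕ)], OnX γ (fun j => ((a j : ℤ) : ℚ_[(p.1 : ℕ)])) z' ∧
      (∀ i, ‖z' i‖ ≤ 1) ∧ ∀ i j, ‖(((ξ.2 p i j : Fin B) : ℕ) : ℚ_[(p.1 : ℕ)]) - z' i j‖ ≤
        ((((p.1 : ℕ) : ℝ) ^ N))⁻¹

/-- the class `ξ` contains the local points -/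
def CloseW (S : Finset Nat.Primes) (N B : ℕ)
    (X : (p : Nat.Primes) → Fin 2 → ℚ_[(p : ℕ)])
    (Z : (p : Nat.Primes) → Fin r → Fin 3 → ℚ_[(p : ℕ)])
    (ξ : (S → Fin 2 → Fin B) × (S → Fin r → Fin 3 → Fin B)) : Prop :=
  ∀ p : S, (∀ j, ‖X p.1 j - (((ξ.1 p j : Fin B) : ℕ) : ℚ_[(p.1 : ℕ)])‖ ≤
      ((((p.1 : ℕ) : ℝ) ^ N))⁻¹) ∧
    ∀ i j, ‖Z p.1 i j - (((ξ.2 p i j : Fin B) : ℕ) : ℚ_[(p.1 : ℕ)])‖ ≤
      ((((p.1 : ℕ) : ℝ) ^ N))⁻¹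

theorem exists_close (S : Finset Nat.Primes) (N m : ℕ) (hS : ∀ p ∈ S, (p : ℕ) ≤ m)
    (X : (p : Nat.Primes) → Fin 2 → ℚ_[(p : ℕ)])
    (Z : (p : Nat.Primes) → Fin r → Fin 3 → ℚ_[(p : ℕ)])
    (hX : ∀ p, ‖X p‖ = 1) (hZ : ∀ p i, ‖Z p i‖ = 1) :
    ∃ ξ, CloseW S N (m ^ N + 1) X Z ξ := by
  have h1 : ∀ (p : S) (j : Fin 2), ∃ u : Fin (m ^ N + 1),
      ‖X p.1 j - ((u : ℕ) : ℚ_[(p.1 : ℕ)])‖ ≤ ((((p.1 : ℕ) : ℝ) ^ N))⁻¹ := by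
    intro p j
    obtain ⟨u, hu, hu'⟩ := padic_appr (X p.1 j) ((norm_le_pi_norm (X p.1) j).trans (hX p.1).le) N
    have : u < m ^ N + 1 := by
      have := Nat.pow_le_pow_left (hS p.1 p.2) N
      omega
    exact ⟨⟨u, this⟩, hu'⟩
  have h2 : ∀ (p : S) (i : Fin r) (j : Fin 3), ∃ u : Fin (m ^ N + 1),
      ‖Z p.1 i j - ((u : ℕ) : ℚ_[(p.1 : ℕ)])‖ ≤ ((((p.1 : ℕ) : ℝ) ^ N))⁻¹ := by
    intro p i j
    obtain ⟨u, hu, hu'⟩ := padic_appr (Z p.1 i j)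
      ((norm_le_pi_norm (Z p.1 i) j).trans (hZ p.1 i).le) N
    have : u < m ^ N + 1 := by
      have := Nat.pow_le_pow_left (hS p.1 p.2) N
      omega
    exact ⟨⟨u, this⟩, hu'⟩
  choose f hf using h1
  choose g hg using h2
  exact ⟨(f, g), fun p => ⟨hf p, hg p⟩⟩

theorem norm_le_one_of_close {p : ℕ} [Fact p.Prime] {N : ℕ} {z z' : Fin 3 → ℚ_[p]}
    (hz : ‖z‖ ≤ 1) (h : ∀ j, ‖z j - z' j‖ ≤ ((p : ℝ) ^ N)⁻¹) : ‖z'‖ ≤ 1 := by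
  refine (pi_norm_le_iff_of_nonneg zero_le_one).2 fun j => ?_
  have e1 : z' j = (-(z j - z' j)) + z j := by ring
  rw [e1]
  refine (Padic.nonarchimedean _ _).trans (max_le ?_ ((norm_le_pi_norm z j).trans hz))
  rw [norm_neg]
  exact (h j).trans (inv_le_one' N)

/-- transport of `PS` -/
theorem ps_trans (h6 : S_TRW) (p : ℕ) [Fact p.Prime] (n : ℕ)
    (c γ : (k : Fin r × Fin 3) → Fin (e k + 2) → ℤ) (a : Fin 2 → ℤ)
    (hc : ∀ k j, (p : ℤ) ^ (9 * n + 26) ∣ c k j - γ k j)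
    (ha : ∀ k, ¬ ((p : ℤ) ^ (8 * n + 24) ∣ fm (c k) (a 0) (a 1)))
    (hps : PS c ((a 0 : ℤ) : ℚ_[p]) ((a 1 : ℤ) : ℚ_[p])) :
    PS γ ((a 0 : ℤ) : ℚ_[p]) ((a 1 : ℤ) : ℚ_[p]) := by
  have h := (h6 r e p n c γ a a hc (fun j => by simp) ha).2
  have h1 : ∀ i, ∃ z : Fin 3 → ℚ_[p], ‖z‖ ≤ 1 ∧
      OnC (fmv (c (i, 0)) ((a 0 : ℤ) : ℚ_[p]) ((a 1 : ℤ) : ℚ_[p]))
        (fmv (c (i, 1)) ((a 0 : ℤ) : ℚ_[p]) ((a 1 : ℤ) : ℚ_[p]))
        (fmv (c (i, 2)) ((a 0 : ℤ) : ℚ_[p]) ((a 1 : ℤ) : ℚ_[p])) z := by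
    intro i
    obtain ⟨z, hz⟩ := onC_of_sol (hps.2 i)
    obtain ⟨l, hl, hl1⟩ := exists_scal z hz.1
    exact ⟨l • z, hl1.le, onC_smul hl hz⟩
  choose z hz1 hz2 using h1
  obtain ⟨z', hz', -⟩ := h z hz1 ⟨hps.1, hz2⟩
  exact onX_PS hz'

/-- existence of the base point for the class -/
theorem gd_exists (h6 : S_TRW) (S : Finset Nat.Primes) (N W : ℕ) (n : ℕ → ℕ) (B : ℕ) (M : ℕ)
    (hSW : ∀ p ∈ S, (p : ℕ) ≤ W) (hn : ∀ p, N ≤ n p)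
    (hMp : ∀ p : ℕ, p.Prime → p ≤ W → p ^ (9 * n p + 26) ∣ M)
    (c γ : (k : Fin r × Fin 3) → Fin (e k + 2) → ℤ) (hcγ : ∀ k j, (M : ℤ) ∣ c k j - γ k j)
    (X : (p : Nat.Primes) → Fin 2 → ℚ_[(p : ℕ)])
    (Z : (p : Nat.Primes) → Fin r → Fin 3 → ℚ_[(p : ℕ)])
    (hZ : ∀ p i, ‖Z p i‖ = 1)
    (ξ : (S → Fin 2 → Fin B) × (S → Fin r → Fin 3 → Fin B)) (hξ : CloseW S N B X Z ξ)
    (a : Fin 2 → ℤ)
    (hg1 : ∀ p ∈ S, (∀ j, ‖X p j - (a j : ℚ_[(p : ℕ)])‖ ≤ ((((p : ℕ) : ℝ) ^ N))⁻¹) ∧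
        ∃ z' : Fin r → Fin 3 → ℚ_[(p : ℕ)], OnX c (fun j => ((a j : ℤ) : ℚ_[(p : ℕ)])) z' ∧
          ∀ i j, ‖Z p i j - z' i j‖ ≤ ((((p : ℕ) : ℝ) ^ N))⁻¹)
    (hg2 : ∀ p : ℕ, p.Prime → p ≤ W → ∀ k, ¬ ((p : ℤ) ^ (8 * n p + 24) ∣ fm (c k) (a 0) (a 1)))
    (hg3 : ∀ (p : ℕ) [Fact p.Prime], p ≤ W → PS c ((a 0 : ℤ) : ℚ_[p]) ((a 1 : ℤ) : ℚ_[p])) :
    GdW S N W n B γ ξ a := by
  have hdiv : ∀ p : ℕ, p.Prime → p ≤ W → ∀ k j, (p : ℤ) ^ (9 * n p + 26) ∣ c k j - γ k j := by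
    intro p hp hpW k j
    have h1 : ((p ^ (9 * n p + 26) : ℕ) : ℤ) ∣ (M : ℤ) := by exact_mod_cast hMp p hp hpW
    push_cast at h1
    exact h1.trans (hcγ k j)
  refine ⟨fun p hp hpW => ?_, fun p _ hpW => ?_, fun p => ?_⟩
  · have : Fact p.Prime := ⟨hp⟩
    exact (h6 r e p (n p) c γ a a (hdiv p hp hpW) (fun j => by simp) (hg2 p hp hpW)).1
  · have hp : p.Prime := Fact.out
    exact ps_trans h6 p (n p) c γ a (hdiv p hp hpW) (hg2 p hp hpW) (hg3 p hpW)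
  · obtain ⟨h1, z₁, hz1, hz2⟩ := hg1 p.1 p.2
    have hpp : (p.1 : ℕ).Prime := p.1.2
    have hpW := hSW p.1 p.2
    refine ⟨fun j => ?_, ?_⟩
    · refine tri ?_ (h1 j)
      rw [norm_sub_rev]
      exact (hξ p).1 j
    · have hz3 : ∀ i, ‖z₁ i‖ ≤ 1 := fun i =>
        norm_le_one_of_close (hZ p.1 i).le (hz2 i)
      obtain ⟨z₂, hz4, hz5⟩ := (h6 r e (p.1 : ℕ) (n p.1) c γ a a (hdiv _ hpp hpW)
        (fun j => by simp) (hg2 _ hpp hpW)).2 z₁ hz3 hz1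
      have hz6 : ∀ i j, ‖z₁ i j - z₂ i j‖ ≤ ((((p.1 : ℕ) : ℝ) ^ N))⁻¹ := fun i j =>
        (hz5 i j).trans (inv_mono (hn _))
      refine ⟨z₂, hz4, fun i => norm_le_one_of_close (hz3 i) (hz6 i), fun i j => ?_⟩
      refine tri (b := Z p.1 i j) ?_ (tri (hz2 i j) (hz6 i j))
      rw [norm_sub_rev]
      exact (hξ p).2 i j

/-- the local points near the rational point -/
theorem gd_use (h6 : S_TRW) (S : Finset Nat.Primes) (N W : ℕ) (n : ℕ → ℕ) (B : ℕ) (M : ℕ)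
    (hSW : ∀ p ∈ S, (p : ℕ) ≤ W) (hn : ∀ p, N ≤ n p)
    (hMp : ∀ p : ℕ, p.Prime → p ≤ W → p ^ (9 * n p + 26) ∣ M)
    (c γ : (k : Fin r × Fin 3) → Fin (e k + 2) → ℤ) (hcγ : ∀ k j, (M : ℤ) ∣ c k j - γ k j)
    (X : (p : Nat.Primes) → Fin 2 → ℚ_[(p : ℕ)])
    (Z : (p : Nat.Primes) → Fin r → Fin 3 → ℚ_[(p : ℕ)])
    (ξ : (S → Fin 2 → Fin B) × (S → Fin r → Fin 3 → Fin B)) (hξ : CloseW S N B X Z ξ)
    (a : Fin 2 → ℤ) (ha : GdW S N W n B γ ξ a) (x : Fin 2 → ℤ) (hx : ∀ j, (M : ℤ) ∣ x j - a j) :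
    ∀ p ∈ S, (∀ j, ‖X p j - (x j : ℚ_[(p : ℕ)])‖ ≤ ((((p : ℕ) : ℝ) ^ N))⁻¹) ∧
      ∃ z' : Fin r → Fin 3 → ℚ_[(p : ℕ)], OnX c (fun j => ((x j : ℤ) : ℚ_[(p : ℕ)])) z' ∧
        ∀ i j, ‖Z p i j - z' i j‖ ≤ ((((p : ℕ) : ℝ) ^ N))⁻¹ := by
  intro p hp
  obtain ⟨h1, z₁, hz1, hz2, hz3⟩ := ha.2.2 ⟨p, hp⟩
  have hpp : (p : ℕ).Prime := p.2
  have hpW := hSW p hp
  have hM : (((p : ℕ) : ℤ)) ^ (9 * n p + 26) ∣ (M : ℤ) := by
    have h1 : (((p : ℕ) ^ (9 * n p + 26) : ℕ) : ℤ) ∣ (M : ℤ) := by exact_mod_cast hMp p hpp hpW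
    push_cast at h1
    exact h1
  have hxa : ∀ j, (((p : ℕ) : ℤ)) ^ (9 * n p + 26) ∣ a j - x j := fun j => by
    have := hM.trans (hx j)
    rw [← Int.dvd_neg] at this
    rwa [neg_sub] at this
  have hcg : ∀ k j, (((p : ℕ) : ℤ)) ^ (9 * n p + 26) ∣ γ k j - c k j := fun k j => by
    have := hM.trans (hcγ k j)
    rw [← Int.dvd_neg] at this
    rwa [neg_sub] at this
  refine ⟨fun j => ?_, ?_⟩
  · refine tri ((hξ ⟨p, hp⟩).1 j) (tri (h1 j) (int_close ?_))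
    exact (pow_dvd_pow _ (by have := hn p; omega)).trans (hxa j)
  · obtain ⟨z₂, hz4, hz5⟩ := (h6 r e (p : ℕ) (n p) γ c a x hcg hxa (ha.1 _ hpp hpW)).2 z₁ hz2 hz1
    refine ⟨z₂, hz4, fun i j => ?_⟩
    exact tri ((hξ ⟨p, hp⟩).2 i j) (tri (hz3 i j) ((hz5 i j).trans (inv_mono (hn _))))

/-! ### The rational point -/

theorem near_mono {K : Type} [NormedField K] {n : ℕ} {a b : Fin n → K} {ε ε' : ℝ}
    (h : Near ε a b) (hε : ε ≤ ε') : Near ε' a b := by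
  obtain ⟨l, hl, h1⟩ := h
  exact ⟨l, hl, fun j => (h1 j).trans (mul_le_mul_of_nonneg_left hε (norm_nonneg _))⟩

theorem cast_fmv {e : ℕ} (c : Fin (e + 2) → ℤ) (K : Type) [Field K] [CharZero K] (x y : ℤ) :
    ((fmv c (x : ℚ) (y : ℚ) : ℚ) : K) = fmv c (x : K) (y : K) := by
  unfold fmv fm
  push_cast
  rfl

theorem onC_base (he : ∀ i l l', e (i, l) = e (i, l'))
    {c : (k : Fin r × Fin 3) → Fin (e k + 2) → ℤ} {K : Type} [Field K] {u v : K} (i : Fin r)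
    {z : Fin 3 → K} (l : K)
    (h : OnC (fmv (c (i, 0)) u v) (fmv (c (i, 1)) u v) (fmv (c (i, 2)) u v) z) :
    OnC (fmv (c (i, 0)) (l * u) (l * v)) (fmv (c (i, 1)) (l * u) (l * v))
      (fmv (c (i, 2)) (l * u) (l * v)) z := by
  have h1 : l ^ (e (i, 1) + 1) = l ^ (e (i, 0) + 1) := by rw [he i 1 0]
  have h2 : l ^ (e (i, 2) + 1) = l ^ (e (i, 0) + 1) := by rw [he i 2 0]
  rw [fmv_smul, fmv_smul, fmv_smul, h1, h2]
  exact onC_scale h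

theorem wap_point (h7 : S_CWA) (he : ∀ i l l', e (i, l) = e (i, l')) (m N : ℕ) (hm : 1 ≤ m)
    (hN : 4 * m ≤ 2 ^ N) (S : Finset Nat.Primes) (hS : ∀ p : Nat.Primes, (p : ℕ) ≤ m → p ∈ S)
    (c : (k : Fin r × Fin 3) → Fin (e k + 2) → ℤ)
    (X : (p : Nat.Primes) → Fin 2 → ℚ_[(p : ℕ)])
    (Z : (p : Nat.Primes) → Fin r → Fin 3 → ℚ_[(p : ℕ)])
    (XR : Fin 2 → ℝ) (ZR : Fin r → Fin 3 → ℝ)
    (l : (p : Nat.Primes) → ℚ_[(p : ℕ)]) (μ : (p : Nat.Primes) → Fin r → ℚ_[(p : ℕ)])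
    (hl : ∀ p, l p ≠ 0) (hμ : ∀ p i, μ p i ≠ 0) (hl1 : ∀ p, ‖l p • X p‖ = 1)
    (hμ1 : ∀ p i, ‖μ p i • Z p i‖ = 1)
    (x : Fin 2 → ℤ) (hx0 : 0 < x 0) (hps : PS c ((x 0 : ℤ) : ℚ) ((x 1 : ℤ) : ℚ))
    (hloc : ∀ p ∈ S, (∀ j, ‖(l p • X p) j - (x j : ℚ_[(p : ℕ)])‖ ≤ ((((p : ℕ) : ℝ) ^ N))⁻¹) ∧
      ∃ z' : Fin r → Fin 3 → ℚ_[(p : ℕ)], OnX c (fun j => ((x j : ℤ) : ℚ_[(p : ℕ)])) z' ∧
        ∀ i j, ‖(μ p i • Z p i) j - z' i j‖ ≤ ((((p : ℕ) : ℝ) ^ N))⁻¹)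
    (hr1 : Near (1 / (4 * (m : ℝ))) XR ![1, (x 1 : ℝ) / (x 0 : ℝ)])
    (hr2 : ∀ i, ∃ z' : Fin 3 → ℝ, OnC (fmv (c (i, 0)) (1 : ℝ) ((x 1 : ℝ) / (x 0 : ℝ)))
      (fmv (c (i, 1)) (1 : ℝ) ((x 1 : ℝ) / (x 0 : ℝ)))
      (fmv (c (i, 2)) (1 : ℝ) ((x 1 : ℝ) / (x 0 : ℝ))) z' ∧ Near (1 / (4 * (m : ℝ))) (ZR i) z') :
    ∃ (x : Fin 2 → ℚ) (z : Fin r → Fin 3 → ℚ), OnX c x z ∧
      (∀ p : Nat.Primes, (p : ℕ) ≤ m → Near (1 / (m : ℝ)) (X p) (fun j => (x j : ℚ_[(p : ℕ)])) ∧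
        ∀ i, Near (1 / (m : ℝ)) (Z p i) (fun j => (z i j : ℚ_[(p : ℕ)]))) ∧
      Near (1 / (m : ℝ)) XR (fun j => (x j : ℝ)) ∧
        ∀ i, Near (1 / (m : ℝ)) (ZR i) (fun j => (z i j : ℝ)) := by
  classical
  have hm0 : (1 : ℝ) ≤ m := by exact_mod_cast hm
  obtain ⟨ε, hε⟩ : ∃ ε : ℝ, ε = 1 / (4 * (m : ℝ)) := ⟨_, rfl⟩
  rw [← hε] at hr1 hr2
  have hε0 : 0 < ε := by rw [hε]; positivity
  have hε4 : ε ≤ 1 / 4 := by
    rw [hε, div_le_div_iff₀ (by positivity) (by norm_num)]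
    linarith
  have hεm : 4 * ε = 1 / (m : ℝ) := by
    rw [hε]; field_simp
  have hεm1 : ε ≤ 1 / (m : ℝ) := by linarith
  have hεm2 : ε + ε * (1 + ε) ≤ 1 / (m : ℝ) := by nlinarith
  have hpN : ∀ p : Nat.Primes, ((((p : ℕ) : ℝ) ^ N))⁻¹ ≤ ε := by
    intro p
    have h2 : (2 : ℝ) ≤ ((p : ℕ) : ℝ) := by exact_mod_cast p.2.two_le
    have h3 : (2 : ℝ) ^ N ≤ ((p : ℕ) : ℝ) ^ N := pow_le_pow_left₀ (by norm_num) h2 N
    have h4 : 4 * (m : ℝ) ≤ (2 : ℝ) ^ N := by exact_mod_cast hN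
    rw [hε, one_div]
    exact inv_anti₀ (by positivity) (h4.trans h3)
  have hX : ∀ p ∈ S, Near ε (X p) (fun j => (x j : ℚ_[(p : ℕ)])) := by
    intro p hp
    exact near_of_scaled (hl p) (hl1 p) (fun j => ((hloc p hp).1 j).trans (hpN p))
  have hzz : ∀ p : Nat.Primes, ∃ z'' : Fin r → Fin 3 → ℚ_[(p : ℕ)], p ∈ S →
      (OnX c (fun j => ((x j : ℤ) : ℚ_[(p : ℕ)])) z'' ∧ ∀ i, Near ε (Z p i) (z'' i)) := by
    intro p
    by_cases hp : p ∈ S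
    · obtain ⟨-, z', hz1, hz2⟩ := hloc p hp
      exact ⟨z', fun _ => ⟨hz1, fun i => near_of_scaled (hμ p i) (hμ1 p i)
        (fun j => (hz2 i j).trans (hpN p))⟩⟩
    · exact ⟨0, fun h => absurd h hp⟩
  choose zz hzz using hzz
  have hx0' : (0 : ℝ) < (x 0 : ℝ) := by exact_mod_cast hx0
  have hvec : (fun j => (x 0 : ℝ) * (![1, (x 1 : ℝ) / (x 0 : ℝ)] : Fin 2 → ℝ) j) =
      fun j => (x j : ℝ) := by
    funext j
    fin_cases j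
    · show (x 0 : ℝ) * 1 = (x 0 : ℝ)
      ring
    · show (x 0 : ℝ) * ((x 1 : ℝ) / (x 0 : ℝ)) = (x 1 : ℝ)
      field_simp
  have hXR : Near ε XR (fun j => (x j : ℝ)) := by
    rw [← hvec]
    exact near_smul_right hx0'.ne' hr1
  have hcon : ∀ i, ∃ z : Fin 3 → ℚ,
      OnC (fmv (c (i, 0)) ((x 0 : ℤ) : ℚ) ((x 1 : ℤ) : ℚ))
        (fmv (c (i, 1)) ((x 0 : ℤ) : ℚ) ((x 1 : ℤ) : ℚ))
        (fmv (c (i, 2)) ((x 0 : ℤ) : ℚ) ((x 1 : ℤ) : ℚ)) z ∧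
      (∀ p ∈ S, Near ε (zz p i) (fun j => (z j : ℚ_[(p : ℕ)]))) ∧
      Near (1 / (m : ℝ)) (ZR i) (fun j => (z j : ℝ)) := by
    intro i
    obtain ⟨zr, hzr1, hzr2⟩ := hr2 i
    have hzr3 := onC_base he i (x 0 : ℝ) hzr1
    have e1 : (x 0 : ℝ) * ((x 1 : ℝ) / (x 0 : ℝ)) = (x 1 : ℝ) := by field_simp
    rw [mul_one, e1] at hzr3
    obtain ⟨z, hz1, hz2, hz3⟩ := h7 (fmv (c (i, 0)) ((x 0 : ℤ) : ℚ) ((x 1 : ℤ) : ℚ))
        (fmv (c (i, 1)) ((x 0 : ℤ) : ℚ) ((x 1 : ℤ) : ℚ))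
        (fmv (c (i, 2)) ((x 0 : ℤ) : ℚ) ((x 1 : ℤ) : ℚ)) (hps.1 _) (hps.1 _) (hps.1 _) (hps.2 i)
        S (fun p => zz p i) zr
        (fun p hp => by
          rw [cast_fmv, cast_fmv, cast_fmv]
          exact (hzz p hp).1.2 i)
        (by
          rw [cast_fmv, cast_fmv, cast_fmv]
          exact hzr3) ε hε0
    exact ⟨z, hz1, hz2, near_trans hε0.le hε0.le hzr2 hz3 hεm2⟩
  choose z hz1 hz2 hz3 using hcon
  refine ⟨fun j => ((x j : ℤ) : ℚ), z, ⟨hps.1, hz1⟩, fun p hp => ⟨?_, fun i => ?_⟩, ?_, hz3⟩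
  · have h1 := near_mono (hX p (hS p hp)) hεm1
    simpa using h1
  · exact near_trans hε0.le hε0.le ((hzz p (hS p hp)).2 i) (hz2 i p (hS p hp)) hεm2
  · have h1 := near_mono hXR hεm1
    simpa using h1

theorem mainw_ (h1 : S_CLS) (h2 : S_PADC) (h3 : S_RDC) (h4 : S_RDW) (h5 : S_GLUEW) (h6 : S_TRW)
    (h7 : S_CWA) : S_MAINW := by
  classical
  intro r e hr he m η hm hη
  have hm0 : (1 : ℝ) ≤ m := by exact_mod_cast hm
  obtain ⟨δ, hδ, HR, hR⟩ := h3 (Fin r × Fin 3) e (η / 4) (by positivity)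
  obtain ⟨Z, hZ, hRW⟩ := h4 r e hr he (1 / (4 * (m : ℝ))) δ (by positivity) hδ
  obtain ⟨N, hN⟩ : ∃ N : ℕ, 4 * m ≤ 2 ^ N := ⟨4 * m, Nat.lt_two_pow_self.le⟩
  obtain ⟨S, hS⟩ : ∃ S : Finset Nat.Primes, ∀ p : Nat.Primes, p ∈ S ↔ (p : ℕ) ≤ m := by
    have hf : ((fun p : Nat.Primes => (p : ℕ)) ⁻¹' (Set.Iic m)).Finite :=
      (Set.finite_Iic m).preimage (Nat.Primes.coe_nat_injective.injOn)
    exact ⟨hf.toFinset, fun p => hf.mem_toFinset⟩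
  obtain ⟨C, hC0, hC⟩ := h1 r e
  obtain ⟨Sg, hSg⟩ : ∃ Sg : Finset (Fin r × Fin 3 → ℤ),
    Sg = Fintype.piFinset (fun _ => ({1, -1} : Finset ℤ)) := ⟨_, rfl⟩
  obtain ⟨Rs, hRs⟩ : ∃ Rs : Finset ((S → Fin 2 → Fin (m ^ N + 1)) ×
    (S → Fin r → Fin 3 → Fin (m ^ N + 1))), Rs = univ := ⟨_, rfl⟩
  -- the choice of `W`
  obtain ⟨Kc, hKc⟩ : ∃ Kc : ℝ, Kc = C * (Rs.card * Z.card * Sg.card) := ⟨_, rfl⟩
  have hKc0 : 0 ≤ Kc := by rw [hKc]; positivity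
  obtain ⟨W, hW2, hWm, hWK⟩ : ∃ W : ℕ, 2 ≤ W ∧ m ≤ W ∧ Kc / W ≤ η / 4 := by
    obtain ⟨W₁, hW₁⟩ := exists_nat_gt (4 * Kc / η)
    refine ⟨2 + m + W₁, by omega, by omega, ?_⟩
    have h5 : (4 * Kc / η) < ((2 + m + W₁ : ℕ) : ℝ) := by
      refine hW₁.trans_le ?_
      exact_mod_cast Nat.le_add_left _ _
    have h6 : (0 : ℝ) < ((2 + m + W₁ : ℕ) : ℝ) := by
      exact_mod_cast (by omega : 0 < 2 + m + W₁)
    rw [div_lt_iff₀ hη] at h5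
    rw [div_le_div_iff₀ h6 (by norm_num)]
    linarith
  have hW0 : (0 : ℝ) < W := by exact_mod_cast (by omega : 0 < W)
  have hWS : ∀ p ∈ S, (p : ℕ) ≤ W := fun p hp => ((hS p).1 hp).trans hWm
  -- the exponents
  have hp : ∀ p : ℕ, ∃ n : ℕ, N ≤ n ∧ ∃ H₀ : ℕ, p.Prime → ∀ H : ℕ, H₀ ≤ H →
      (((BXI e H).filter (fun c => padBad p n c)).card : ℝ) ≤
        η / (4 * (W + 1)) * ((2 * H + 1 : ℕ) : ℝ) ^ ncI e := by
    intro p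
    by_cases hpp : p.Prime
    · obtain ⟨n, hn, H₀, h5⟩ := h2 (Fin r × Fin 3) e p hpp (η / (4 * (W + 1))) N (by positivity)
      exact ⟨n, hn, H₀, fun _ H hH => h5 H hH⟩
    · exact ⟨N, le_rfl, 0, fun h => absurd h hpp⟩
  choose n hn HP hHP using hp
  obtain ⟨PW, hPW⟩ : ∃ PW : Finset ℕ, PW = (Icc 1 W).filter Nat.Prime := ⟨_, rfl⟩
  obtain ⟨M, hM⟩ : ∃ M : ℕ, M = ∏ p ∈ (Icc 1 W).filter Nat.Prime, p ^ (9 * n p + 26) := ⟨_, rfl⟩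
  have hmemPW : ∀ p : ℕ, p.Prime → p ≤ W → p ∈ (Icc 1 W).filter Nat.Prime := by
    intro p h5 h6
    rw [mem_filter, mem_Icc]
    exact ⟨⟨h5.one_lt.le, h6⟩, h5⟩
  have hM1 : 1 ≤ M := by
    rw [hM]
    refine Nat.one_le_iff_ne_zero.2 (prod_ne_zero_iff.2 fun p h5 => ?_)
    exact pow_ne_zero _ (mem_filter.1 h5).2.ne_zero
  have hMp : ∀ p : ℕ, p.Prime → p ≤ W → p ^ (9 * n p + 26) ∣ M := by
    intro p h5 h6
    rw [hM]
    exact dvd_prod_of_mem (fun p => p ^ (9 * n p + 26)) (hmemPW p h5 h6)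
  have hMp1 : ∀ p : ℕ, p.Prime → p ≤ W → p ∣ M := fun p h5 h6 =>
    (dvd_pow_self p (by omega)).trans (hMp p h5 h6)
  have hMp2 : ∀ p : ℕ, p.Prime → p ∣ M → p ≤ W := by
    intro p h5 h6
    rw [hM] at h6
    obtain ⟨q, hq, h7⟩ := (Nat.Prime.prime h5).exists_mem_finset_dvd h6
    have h8 := (mem_filter.1 hq)
    have h9 := (Nat.prime_dvd_prime_iff_eq h5 h8.2).1 (h5.dvd_of_dvd_pow h7)
    rw [h9]
    exact (mem_Icc.1 h8.1).2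
  have h2M : 2 ∣ M := hMp1 2 Nat.prime_two hW2
  -- the chosen points
  have ha : ∀ (γ : (k : Fin r × Fin 3) → Fin (e k + 2) → ℤ)
      (ξ : (S → Fin 2 → Fin (m ^ N + 1)) × (S → Fin r → Fin 3 → Fin (m ^ N + 1))),
      ∃ a : Fin 2 → ℤ, (∃ a', GdW S N W n (m ^ N + 1) γ ξ a') → GdW S N W n (m ^ N + 1) γ ξ a := by
    intro γ ξ
    by_cases h5 : ∃ a', GdW S N W n (m ^ N + 1) γ ξ a'
    · obtain ⟨a', h6⟩ := h5
      exact ⟨a', fun _ => h6⟩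
    · exact ⟨0, fun h => absurd h h5⟩
  choose a haG using ha
  have hB : ∀ x : (((k : Fin r × Fin 3) → Fin (e k + 2) → ℤ) ×
      ((S → Fin 2 → Fin (m ^ N + 1)) × (S → Fin r → Fin 3 → Fin (m ^ N + 1)))) × ((ℝ × ℝ) ×
      (Fin r × Fin 3 → ℤ)), ∃ H₀ : ℕ, ((∃ a', GdW S N W n (m ^ N + 1) x.1.1 x.1.2 a') ∧
        x.2.1.1 < x.2.1.2 ∧ SS x.2.2) →
      ∀ H : ℕ, H₀ ≤ H → ((BB M x.1.1 x.2.2 (a x.1.1 x.1.2 0) (a x.1.1 x.1.2 1) x.2.1.1 x.2.1.2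
        H).card : ℝ) ≤ C / W * (((2 * H + 1 : ℕ) : ℝ) / M) ^ ncI e := by
    intro x
    by_cases h5 : (∃ a', GdW S N W n (m ^ N + 1) x.1.1 x.1.2 a') ∧ x.2.1.1 < x.2.1.2 ∧ SS x.2.2
    · have h6 := haG x.1.1 x.1.2 h5.1
      obtain ⟨H₀, h7⟩ := hC W M (by omega) hM1 h2M hMp1 hMp2 (a x.1.1 x.1.2 0)
        (a x.1.1 x.1.2 1) x.2.1.1 x.2.1.2 h5.2.1 x.1.1 x.2.2 h5.2.2
        (by
          intro p hp hpM
          have : Fact p.Prime := ⟨hp⟩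
          have hpW := hMp2 p hp hpM
          have h8 : 9 * n p + 26 ≤ padicValNat p M :=
            (padicValNat_dvd_iff_le (by omega)).1 (hMp p hp hpW)
          refine ⟨by omega, fun k hk => h6.1 p hp hpW k ?_⟩
          exact (pow_dvd_pow _ (by omega)).trans hk)
        (by
          intro p _ hpM
          exact h6.2.1 p (hMp2 p Fact.out hpM))
      exact ⟨H₀, fun _ H hH => h7 H hH⟩
    · exact ⟨0, fun h => absurd h h5⟩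
  choose HB hHB using hB
  obtain ⟨Gam, hGam⟩ : ∃ Gam : Finset ((k : Fin r × Fin 3) → Fin (e k + 2) → ℤ),
    Gam = Fintype.piFinset (fun k : Fin r × Fin 3 =>
      Fintype.piFinset (fun _ : Fin (e k + 2) => Ico (0 : ℤ) M)) := ⟨_, rfl⟩
  obtain ⟨idx, hidx⟩ : ∃ idx : Finset ((((k : Fin r × Fin 3) → Fin (e k + 2) → ℤ) ×
    ((S → Fin 2 → Fin (m ^ N + 1)) × (S → Fin r → Fin 3 → Fin (m ^ N + 1)))) ×
    ((ℝ × ℝ) × (Fin r × Fin 3 → ℤ))), idx = (Gam ×ˢ Rs) ×ˢ (Z ×ˢ Sg) := ⟨_, rfl⟩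
  obtain ⟨idx', hidx'⟩ : ∃ idx' : Finset ((((k : Fin r × Fin 3) → Fin (e k + 2) → ℤ) ×
    ((S → Fin 2 → Fin (m ^ N + 1)) × (S → Fin r → Fin 3 → Fin (m ^ N + 1)))) ×
    ((ℝ × ℝ) × (Fin r × Fin 3 → ℤ))), idx' = idx.filter (fun x =>
      (∃ a', GdW S N W n (m ^ N + 1) x.1.1 x.1.2 a') ∧ x.2.1.1 < x.2.1.2 ∧ SS x.2.2) := ⟨_, rfl⟩
  refine ⟨1 + HR + PW.sup HP + idx.sup HB, fun H hH => ?_⟩
  have hH1 : 1 ≤ H := by omega
  have hHR : HR ≤ H := by omega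
  have hHPH : ∀ p ∈ PW, HP p ≤ H := by
    intro p h5
    have := Finset.le_sup (f := HP) h5
    omega
  have hHBH : ∀ x ∈ idx, HB x ≤ H := by
    intro x h5
    have := Finset.le_sup (f := HB) h5
    omega
  obtain ⟨T, hT⟩ : ∃ T : ℝ, T = ((2 * H + 1 : ℕ) : ℝ) ^ ncI e := ⟨_, rfl⟩
  have hT0 : 0 ≤ T := by rw [hT]; positivity
  -- the three exceptional sets
  obtain ⟨A1, hA1⟩ : ∃ A1 : Finset ((k : Fin r × Fin 3) → Fin (e k + 2) → ℤ),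
    A1 = PW.biUnion (fun p => (BXI e H).filter (fun c => padBad p (n p) c)) := ⟨_, rfl⟩
  obtain ⟨A2, hA2⟩ : ∃ A2 : Finset ((k : Fin r × Fin 3) → Fin (e k + 2) → ℤ),
    A2 = (BXI e H).filter (fun c => rBad (δ * H) c) := ⟨_, rfl⟩
  obtain ⟨A3, hA3⟩ : ∃ A3 : Finset ((k : Fin r × Fin 3) → Fin (e k + 2) → ℤ),
    A3 = idx'.biUnion (fun x => BB M x.1.1 x.2.2 (a x.1.1 x.1.2 0) (a x.1.1 x.1.2 1)
      x.2.1.1 x.2.1.2 H) := ⟨_, rfl⟩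
  have hc1 : (A1.card : ℝ) ≤ η / 4 * T := by
    have h5 : (A1.card : ℝ) ≤ ∑ p ∈ PW,
        (((BXI e H).filter (fun c => padBad p (n p) c)).card : ℝ) := by
      rw [hA1]
      exact_mod_cast card_biUnion_le
    refine h5.trans ?_
    have h6 : ∀ p ∈ PW, (((BXI e H).filter (fun c => padBad p (n p) c)).card : ℝ) ≤
        η / (4 * (W + 1)) * T := by
      intro p h7
      rw [hT]
      refine hHP p ?_ H (hHPH p h7)
      rw [hPW] at h7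
      exact (mem_filter.1 h7).2
    refine (sum_le_sum h6).trans ?_
    rw [sum_const, nsmul_eq_mul]
    have h7 : (PW.card : ℝ) ≤ W := by
      have h8 : PW.card ≤ W := by
        rw [hPW]
        refine (card_filter_le _ _).trans ?_
        rw [Nat.card_Icc]
        omega
      exact_mod_cast h8
    have h8 : (PW.card : ℝ) * (η / (4 * (W + 1))) ≤ η / 4 := by
      rw [← mul_div_assoc, div_le_div_iff₀ (by positivity) (by norm_num)]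
      nlinarith
    calc (PW.card : ℝ) * (η / (4 * (W + 1)) * T) = (PW.card : ℝ) * (η / (4 * (W + 1))) * T := by
          ring
      _ ≤ η / 4 * T := mul_le_mul_of_nonneg_right h8 hT0
  have hc2 : (A2.card : ℝ) ≤ η / 4 * T := by
    rw [hA2, hT]
    have h5 := hR H hHR
    convert h5
  have hc3 : (A3.card : ℝ) ≤ η / 4 * T := by
    have h5 : (A3.card : ℝ) ≤ ∑ x ∈ idx', ((BB M x.1.1 x.2.2 (a x.1.1 x.1.2 0)
        (a x.1.1 x.1.2 1) x.2.1.1 x.2.1.2 H).card : ℝ) := by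
      rw [hA3]
      exact_mod_cast card_biUnion_le
    refine h5.trans ?_
    have h6 : ∀ x ∈ idx', ((BB M x.1.1 x.2.2 (a x.1.1 x.1.2 0)
        (a x.1.1 x.1.2 1) x.2.1.1 x.2.1.2 H).card : ℝ) ≤
        C / W * (((2 * H + 1 : ℕ) : ℝ) / M) ^ ncI e := by
      intro x h7
      rw [hidx'] at h7
      have h8 := mem_filter.1 h7
      exact hHB x h8.2 H (hHBH x h8.1)
    refine (sum_le_sum h6).trans ?_
    rw [sum_const, nsmul_eq_mul]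
    have h7 : (idx'.card : ℝ) ≤ (M : ℝ) ^ ncI e * (Rs.card * Z.card * Sg.card) := by
      have h8 : idx'.card ≤ M ^ ncI e * (Rs.card * Z.card * Sg.card) := by
        rw [hidx']
        refine (card_filter_le _ _).trans ?_
        rw [hidx, card_product, card_product, card_product, hGam, card_Gam]
        apply le_of_eq
        ring
      exact_mod_cast h8
    have hM0 : (0 : ℝ) < (M : ℝ) ^ ncI e := by
      have : (0 : ℝ) < M := by exact_mod_cast hM1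
      positivity
    have h9 : 0 ≤ C / W * (((2 * H + 1 : ℕ) : ℝ) / M) ^ ncI e := by positivity
    refine (mul_le_mul_of_nonneg_right h7 h9).trans ?_
    have h10 : (M : ℝ) ^ ncI e * (Rs.card * Z.card * Sg.card) *
        (C / W * (((2 * H + 1 : ℕ) : ℝ) / M) ^ ncI e) = Kc / W * T := by
      rw [div_pow, hKc, hT]
      field_simp
    rw [h10]
    exact mul_le_mul_of_nonneg_right hWK hT0
  -- the covering
  have hsub : (BXI e H).filter (fun c => ¬ WAp m c) ⊆ A1 ∪ A2 ∪ A3 := by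
    intro c hc
    obtain ⟨hcB, hcA⟩ := mem_filter.1 hc
    by_cases h5' : ∃ p ∈ PW, padBad p (n p) c
    · obtain ⟨p, h6, h7⟩ := h5'
      refine mem_union_left _ (mem_union_left _ ?_)
      rw [hA1, mem_biUnion]
      exact ⟨p, h6, mem_filter.2 ⟨hcB, h7⟩⟩
    by_cases h6' : rBad (δ * H) c
    · refine mem_union_left _ (mem_union_right _ ?_)
      rw [hA2, mem_filter]
      exact ⟨hcB, h6'⟩
    refine mem_union_right _ ?_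
    have hnb : ∀ p : ℕ, p.Prime → p ≤ W → ¬ padBad p (n p) c := by
      intro p h7 h8 h9
      refine h5' ⟨p, ?_, h9⟩
      rw [hPW]
      exact hmemPW p h7 h8
    unfold WAp at hcA
    rw [Classical.not_forall] at hcA
    obtain ⟨X, hcA⟩ := hcA
    rw [Classical.not_forall] at hcA
    obtain ⟨Zp, hcA⟩ := hcA
    rw [Classical.not_forall] at hcA
    obtain ⟨XR, hcA⟩ := hcA
    rw [Classical.not_forall] at hcA
    obtain ⟨ZR, hcA⟩ := hcA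
    rw [Classical.not_imp, Classical.not_imp] at hcA
    obtain ⟨hXZ, hXZR, hno⟩ := hcA
    -- normalisation
    have hX0 : ∀ p, X p ≠ 0 := by
      intro p h8
      have h9 := (hXZ p).1 (⟨0, hr⟩, 0)
      rw [h8] at h9
      exact h9 (fmv_zero _)
    have hl : ∀ p : Nat.Primes, ∃ l : ℚ_[(p : ℕ)], l ≠ 0 ∧ ‖l • X p‖ = 1 :=
      fun p => exists_scal (X p) (hX0 p)
    have hμ : ∀ (p : Nat.Primes) (i : Fin r), ∃ l : ℚ_[(p : ℕ)], l ≠ 0 ∧ ‖l • Zp p i‖ = 1 :=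
      fun p i => exists_scal (Zp p i) ((hXZ p).2 i).1
    choose l hl0 hl1 using hl
    choose μ hμ0 hμ1 using hμ
    obtain ⟨a₁, hg1, hg2, hg3⟩ := h5 r e hr he S N W n M hM hWS hn c hnb (fun p => l p • X p)
      (fun p i => μ p i • Zp p i) (fun p => onX_base he (hl0 p) (onX_fib (hμ0 p) (hXZ p)))
      (fun p _ => ⟨hl1 p, hμ1 p⟩)
    obtain ⟨ξ, hξ⟩ := exists_close S N m (fun p hp => (hS p).1 hp) (fun p => l p • X p)
      (fun p i => μ p i • Zp p i) hl1 hμ1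
    -- the class
    obtain ⟨γ, hγ⟩ : ∃ γ : (k : Fin r × Fin 3) → Fin (e k + 2) → ℤ, ∀ k j, γ k j = c k j % M :=
      ⟨_, fun _ _ => rfl⟩
    have hM0' : (0 : ℤ) < M := by exact_mod_cast hM1
    have hγG : γ ∈ Gam := by
      rw [hGam, Fintype.mem_piFinset]
      intro k
      rw [Fintype.mem_piFinset]
      intro j
      rw [mem_Ico, hγ]
      exact ⟨Int.emod_nonneg _ hM0'.ne', Int.emod_lt_of_pos _ hM0'⟩
    have hcγ : ∀ k j, (M : ℤ) ∣ c k j - γ k j := by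
      intro k j
      rw [hγ]
      exact Int.dvd_self_sub_emod
    have hex : ∃ a', GdW S N W n (m ^ N + 1) γ ξ a' :=
      ⟨a₁, gd_exists h6 S N W n (m ^ N + 1) M hWS hn hMp c γ hcγ (fun p => l p • X p)
        (fun p i => μ p i • Zp p i) hμ1 ξ hξ a₁ hg1 hg2 hg3⟩
    have hchosen := haG γ ξ hex
    obtain ⟨w, hw, s, hs, hpos, hreal⟩ := hRW H hH1 c hcB h6' XR ZR hXZR
    have hsSg : s ∈ Sg := by
      rw [hSg, Fintype.mem_piFinset]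
      intro k
      rw [mem_insert, mem_singleton]
      exact hs.1 k
    rw [hA3, mem_biUnion]
    refine ⟨((γ, ξ), (w, s)), ?_, ?_⟩
    · rw [hidx', mem_filter, hidx]
      refine ⟨mem_product.2 ⟨mem_product.2 ⟨hγG, by rw [hRs]; exact mem_univ _⟩,
        mem_product.2 ⟨hw, hsSg⟩⟩, hex, hZ w hw, hs⟩
    · unfold BB
      rw [mem_filter]
      refine ⟨hcB, hcγ, hpos, ?_⟩
      rintro ⟨x, y, hx0, hxM, hyM, hxy, hyx, hPS⟩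
      have hx0' : (0 : ℝ) < x := by exact_mod_cast hx0
      have hcl := gd_use h6 S N W n (m ^ N + 1) M hWS hn hMp c γ hcγ (fun p => l p • X p)
        (fun p i => μ p i • Zp p i) ξ hξ (a γ ξ) hchosen ![x, y] (by
          intro j
          fin_cases j
          · exact hxM
          · exact hyM)
      have hr1 := hreal ((y : ℝ) / x) (by rw [lt_div_iff₀ hx0']; exact hxy)
        (by rw [div_lt_iff₀ hx0']; exact hyx)
      exact hno (wap_point h7 he m N hm hN S (fun p hp => (hS p).2 hp) c X Zp XR ZR l μ hl0 hμ0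
        hl1 hμ1 ![x, y] hx0 hPS hcl hr1.1 hr1.2)
  have hfin : (((BXI e H).filter (fun c => ¬ WAp m c)).card : ℝ) ≤
      (A1.card : ℝ) + A2.card + A3.card := by
    have h5 := (card_le_card hsub).trans ((card_union_le _ _).trans
      (Nat.add_le_add_right (card_union_le _ _) _))
    exact_mod_cast h5
  rw [← hT]
  have h6 : η / 4 * T + η / 4 * T + η / 4 * T ≤ η * T := by nlinarith [mul_nonneg hη.le hT0]
  have h7 := hfin.trans (add_le_add (add_le_add hc1 hc2) hc3)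
  convert h7.trans h6

end

end Pool.Agent.N896.DW
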